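import Mathlib

set_option autoImplicit false

namespace Pool.Agent.H561R3

/-- the list of all binary strings of length `n` -/
def strs : ℕ → List (List Bool)
  | 0 => [[]]
  | n + 1 => (strs n).flatMap (fun σ => [σ ++ [false], σ ++ [true]])

theorem mem_strs {n : ℕ} {x : List Bool} : x ∈ strs n ↔ x.length = n := by
  induction n generalizing x with
  | zero => simp [strs]
  | succ n ih =>
    simp only [strs, List.mem_flatMap, List.mem_cons, List.not_mem_nil, or_false]
    constructor
    · rintro ⟨σ, hσ, h | h⟩ <;> subst h <;> simp [ih.1 hσ]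
    · intro h
      have hne : x ≠ [] := by
        intro h0; subst h0; simp at h
      refine ⟨x.dropLast, ih.2 (by simp [h]), ?_⟩
      have hx := List.dropLast_append_getLast hne
      cases hb : x.getLast hne
      · left; rw [hb] at hx; exact hx.symm
      · right; rw [hb] at hx; exact hx.symm

theorem nodup_strs (n : ℕ) : (strs n).Nodup := by
  induction n with
  | zero => simp [strs]
  | succ n ih =>
    simp only [strs]
    rw [List.nodup_flatMap]
    refine ⟨fun x _ => by simp, ?_⟩
    refine List.Pairwise.imp ?_ ih
    intro a b hab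
    simp only [Function.onFun, List.Disjoint, List.mem_cons, List.not_mem_nil, or_false]
    intro c h1 h2
    apply hab
    rcases h1 with h1 | h1 <;> rcases h2 with h2 | h2 <;>
    · rw [h1] at h2
      have := congrArg List.dropLast h2
      simpa using this

/-- the finite set of all binary strings of length `n` -/
def FS (n : ℕ) : Finset (List Bool) := (strs n).toFinset

theorem mem_FS {n : ℕ} {x : List Bool} : x ∈ FS n ↔ x.length = n := by
  simp [FS, mem_strs]

theorem sum_FS {n : ℕ} (f : List Bool → ℕ) : ∑ x ∈ FS n, f x = ((strs n).map f).sum := by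
  unfold FS
  exact List.sum_toFinset f (nodup_strs n)

theorem sum_flatMap_aux (L : List (List Bool)) (g : List Bool → ℕ) :
    ((L.flatMap (fun σ => [σ ++ [false], σ ++ [true]])).map g).sum
      = (L.map (fun σ => g (σ ++ [false]) + g (σ ++ [true]))).sum := by
  induction L with
  | nil => simp
  | cons a L ih =>
    simp only [List.flatMap_cons, List.map_append, List.sum_append, ih, List.map_cons,
      List.map_nil, List.sum_cons, List.sum_nil]
    ring

theorem sum_FS_succ (n : ℕ) (g : List Bool → ℕ) :
    ∑ x ∈ FS (n + 1), g x = ∑ x ∈ FS n, (g (x ++ [false]) + g (x ++ [true])) := by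
  rw [sum_FS, sum_FS]
  exact sum_flatMap_aux _ _

theorem sum_take {T N : ℕ} (h : T ≤ N) (f : List Bool → ℕ) :
    ∑ x ∈ FS N, f (x.take T) = 2 ^ (N - T) * ∑ x ∈ FS T, f x := by
  induction N, h using Nat.le_induction with
  | base =>
    simp only [Nat.sub_self, pow_zero, one_mul]
    refine Finset.sum_congr rfl fun x hx => ?_
    rw [List.take_of_length_le (by rw [mem_FS.1 hx])]
  | succ N h ih =>
    rw [sum_FS_succ]
    have : ∀ x ∈ FS N, f ((x ++ [false]).take T) + f ((x ++ [true]).take T)
        = 2 * f (x.take T) := by
      intro x hx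
      have hx' := mem_FS.1 hx
      rw [List.take_append_of_le_length (by omega), List.take_append_of_le_length (by omega)]
      ring
    rw [Finset.sum_congr rfl this, ← Finset.mul_sum, ih, ← mul_assoc, ← pow_succ']
    congr 2
    omega

theorem card_FS (n : ℕ) : (FS n).card = 2 ^ n := by
  have := sum_take (T := 0) (N := n) (by omega) (fun _ => 1)
  simp only [Finset.sum_const, smul_eq_mul, mul_one, Nat.sub_zero] at this
  rw [this]
  have h0 : FS 0 = {[]} := by
    ext x; rw [mem_FS]; simp
  rw [h0]; simp

end Pool.Agent.H561R3
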