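import Mathlib
import Pool.Agent.H561R3.Strs

set_option autoImplicit false

namespace Pool.Agent.H561R3

open Classical in
/-- the sum over the strings of length `N` in `A` -/
noncomputable def sumA (A : List Bool → Prop) (N : ℕ) (f : List Bool → ℕ) : ℕ :=
  ∑ x ∈ FS N, if A x then f x else 0

/-- feasibility of `w` at level `T`: it covers all pairs that are hit at all levels in `[n,T]` -/
def Cov (A : List Bool → Prop) (n M T : ℕ) (w : List Bool → ℕ) : Prop :=
  ∀ x ∈ FS T, ∀ y ∈ FS T, (∀ K, n ≤ K → K ≤ T → A (x.take K) ∨ A (y.take K)) → M ≤ w x + w y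

theorem near_min (A : List Bool → Prop) (n M T0 : ℕ) (hn : n ≤ T0) (V : List Bool → ℕ)
    (hV : ∀ x T, T0 ≤ T → V (x.take T) = V x) (hVM : ∀ x, V x ≤ M) :
    ∃ T, T0 ≤ T ∧ ∃ u : List Bool → ℕ, (∀ x ∈ FS T, V x + u x ≤ M) ∧
      Cov A n M T (fun x => V x + u x) ∧
      ∀ N, T ≤ N → ∑ x ∈ FS N, u (x.take T) ≤ 2 * sumA A N (fun x => u (x.take T)) + 2 ^ N := by
  classical
  -- the family of feasible functions
  let P : ℕ → Prop := fun m => ∃ N, T0 ≤ N ∧ ∃ u : List Bool → ℕ,
    (∀ x ∈ FS N, V x + u x ≤ M) ∧ Cov A n M N (fun x => V x + u x) ∧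
      ∑ x ∈ FS N, (u x) ^ 2 < (m + 1) * 2 ^ N
  have hex : ∃ m, P m := by
    refine ⟨∑ x ∈ FS T0, (M - V x) ^ 2, T0, le_rfl, fun x => M - V x, ?_, ?_, ?_⟩
    · intro x _
      have := hVM x
      show V x + (M - V x) ≤ M
      omega
    · intro x _ y _ _
      have h1 := hVM x
      have h2 := hVM y
      simp only
      omega
    · have : 0 < 2 ^ T0 := by positivity
      nlinarith [Nat.zero_le (∑ x ∈ FS T0, (M - V x) ^ 2)]
  obtain ⟨T, hT, u, hu1, hu2, hu3⟩ := Nat.find_spec hex
  set m := Nat.find hex with hm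
  refine ⟨T, hT, u, hu1, hu2, ?_⟩
  intro N hN
  -- the competitor
  let u' : List Bool → ℕ := fun x =>
    if A x then min (u (x.take T) + 1) (M - V x) else u (x.take T) - 1
  have hmem : ∀ x ∈ FS N, x.take T ∈ FS T := by
    intro x hx
    rw [mem_FS] at hx ⊢
    rw [List.length_take]; omega
  have hbase : ∀ x ∈ FS N, V x + u (x.take T) ≤ M := by
    intro x hx
    have := hu1 _ (hmem x hx)
    rwa [hV x T hT] at this
  have hf1 : ∀ x ∈ FS N, V x + u' x ≤ M := by
    intro x hx
    have h1 := hbase x hx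
    have h2 := hVM x
    simp only [u']
    split_ifs
    · have := min_le_right (u (x.take T) + 1) (M - V x)
      omega
    · omega
  have hf2 : Cov A n M N (fun x => V x + u' x) := by
    intro x hx y hy hK
    have hxy := hu2 (x.take T) (hmem x hx) (y.take T) (hmem y hy) (by
      intro K h1 h2
      have := hK K h1 (h2.trans hN)
      rw [List.take_take, List.take_take, min_eq_left h2]
      exact this)
    simp only [hV x T hT, hV y T hT] at hxy
    have hx' := mem_FS.1 hx
    have hy' := mem_FS.1 hy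
    have hA := hK N (by omega) le_rfl
    rw [List.take_of_length_le (by omega), List.take_of_length_le (by omega)] at hA
    have h1 := hVM x
    have h2 := hVM y
    have h3 := hbase x hx
    have h4 := hbase y hy
    simp only [u']
    by_cases hAx : A x <;> by_cases hAy : A y <;> simp only [hAx, hAy, if_true, if_false]
    · rcases min_cases (u (x.take T) + 1) (M - V x) with h | h <;>
      rcases min_cases (u (y.take T) + 1) (M - V y) with h' | h' <;> omega
    · rcases min_cases (u (x.take T) + 1) (M - V x) with h | h <;> omega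
    · rcases min_cases (u (y.take T) + 1) (M - V y) with h' | h' <;> omega
    · exact absurd hA (by tauto)
  -- minimality
  have hmin : m * 2 ^ N ≤ ∑ x ∈ FS N, (u' x) ^ 2 := by
    by_contra hcon
    push Not at hcon
    have hm0 : m ≠ 0 := by
      intro h0
      rw [h0] at hcon
      simp at hcon
    obtain ⟨m', hm'⟩ := Nat.exists_eq_succ_of_ne_zero hm0
    have : P m' := ⟨N, hT.trans hN, u', hf1, hf2, by rw [hm'] at hcon; exact hcon⟩
    have h5 := Nat.find_min' hex this
    omega
  -- computation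
  have hsq : ∑ x ∈ FS N, (u (x.take T)) ^ 2 = 2 ^ (N - T) * ∑ x ∈ FS T, (u x) ^ 2 :=
    sum_take hN (fun x => (u x) ^ 2)
  have hlt : ∑ x ∈ FS N, (u (x.take T)) ^ 2 < (m + 1) * 2 ^ N := by
    rw [hsq]
    have h1 : 2 ^ (N - T) * ∑ x ∈ FS T, (u x) ^ 2 < 2 ^ (N - T) * ((m + 1) * 2 ^ T) :=
      Nat.mul_lt_mul_of_pos_left hu3 (by positivity)
    have h2 : 2 ^ (N - T) * ((m + 1) * 2 ^ T) = (m + 1) * 2 ^ N := by
      have : 2 ^ N = 2 ^ (N - T) * 2 ^ T := by rw [← pow_add]; congr 1; omega
      rw [this]; ring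
    omega
  have hpt : ∀ x ∈ FS N, (u' x) ^ 2 + 2 * u (x.take T) ≤
      (u (x.take T)) ^ 2 + 1 + 4 * (if A x then u (x.take T) else 0) := by
    intro x hx
    simp only [u']
    split_ifs with hA
    · have h1 : min (u (x.take T) + 1) (M - V x) ≤ u (x.take T) + 1 := min_le_left _ _
      have h2 : (min (u (x.take T) + 1) (M - V x)) ^ 2 ≤ (u (x.take T) + 1) ^ 2 :=
        Nat.pow_le_pow_left h1 2
      nlinarith
    · rcases Nat.eq_zero_or_pos (u (x.take T)) with h | h
      · simp [h]
      · obtain ⟨k, hk⟩ : ∃ k, u (x.take T) = k + 1 := ⟨u (x.take T) - 1, by omega⟩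
        rw [hk]
        simp only [Nat.add_sub_cancel]
        nlinarith
  have hsum := Finset.sum_le_sum hpt
  simp only [Finset.sum_add_distrib, ← Finset.mul_sum, Finset.sum_const, card_FS, smul_eq_mul,
    mul_one] at hsum
  unfold sumA
  nlinarith

/-- the key inequality: the mass of `w` is essentially concentrated on `A` at all later levels -/
def C4 (A : List Bool → Prop) (m T : ℕ) (w : List Bool → ℕ) : Prop :=
  ∀ N, T ≤ N → ∑ x ∈ FS N, w (x.take T) ≤ 2 * sumA A N (fun x => w (x.take T)) + (2 ^ m - 1) * 2 ^ N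

theorem sumA_add (A : List Bool → Prop) (N : ℕ) (f g : List Bool → ℕ) :
    sumA A N (fun x => f x + g x) = sumA A N f + sumA A N g := by
  classical
  unfold sumA
  rw [← Finset.sum_add_distrib]
  refine Finset.sum_congr rfl fun x _ => ?_
  split_ifs <;> simp

theorem sumA_mul (A : List Bool → Prop) (N c : ℕ) (f : List Bool → ℕ) :
    sumA A N (fun x => c * f x) = c * sumA A N f := by
  classical
  unfold sumA
  rw [Finset.mul_sum]
  refine Finset.sum_congr rfl fun x _ => ?_
  split_ifs <;> simp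

/-- one step of the construction -/
theorem step_exists (A : List Bool → Prop) (m d T' : ℕ) (w' : List Bool → ℕ)
    (hw' : ∀ x ∈ FS T', w' x ≤ 2 ^ (m + d)) (h4 : C4 A m T' w') :
    ∃ T, T' ≤ T ∧ m ≤ T ∧ ∃ w : List Bool → ℕ,
      (∀ x ∈ FS T, 2 * w' (x.take T') ≤ w x ∧ w x ≤ 2 ^ (m + 1 + d)) ∧
      Cov A m (2 ^ (m + 1 + d)) T w ∧ C4 A (m + 1) T w := by
  -- extend `w'` by zero outside level `T'`
  let V : List Bool → ℕ := fun x => if T' ≤ x.length then 2 * w' (x.take T') else 0
  have hV : ∀ x T, max T' m ≤ T → V (x.take T) = V x := by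
    intro x T hT
    simp only [V, List.length_take, List.take_take]
    have h1 : min T' T = T' := by omega
    rw [h1]
    by_cases h : T' ≤ x.length
    · rw [if_pos h, if_pos (by omega)]
    · rw [if_neg h, if_neg (by omega)]
  have hVM : ∀ x, V x ≤ 2 ^ (m + 1 + d) := by
    intro x
    simp only [V]
    split_ifs with h
    · have h1 := hw' (x.take T') (by rw [mem_FS, List.length_take]; omega)
      have h2 : 2 ^ (m + 1 + d) = 2 * 2 ^ (m + d) := by
        rw [← pow_succ']; congr 1; omega
      omega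
    · exact Nat.zero_le _
  obtain ⟨T, hT, u, hu1, hu2, hu3⟩ := near_min A m (2 ^ (m + 1 + d)) (max T' m)
    (le_max_right _ _) V hV hVM
  have hT' : T' ≤ T := (le_max_left _ _).trans hT
  have hmT : m ≤ T := (le_max_right _ _).trans hT
  have hVe : ∀ x : List Bool, T ≤ x.length → V (x.take T) = 2 * w' (x.take T') := by
    intro x hx
    rw [hV x T hT]
    simp only [V]
    rw [if_pos (by omega)]
  refine ⟨T, hT', hmT, fun x => V x + u x, ?_, hu2, ?_⟩
  · intro x hx
    refine ⟨?_, hu1 x hx⟩
    have := hVe x (by rw [mem_FS.1 hx])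
    rw [List.take_of_length_le (by rw [mem_FS.1 hx])] at this
    simp only
    omega
  · intro N hN
    have h5 := hu3 N hN
    have h6 := h4 N (hT'.trans hN)
    have e1 : ∑ x ∈ FS N, (V (x.take T) + u (x.take T))
        = 2 * ∑ x ∈ FS N, w' (x.take T') + ∑ x ∈ FS N, u (x.take T) := by
      rw [Finset.sum_add_distrib, Finset.mul_sum]
      congr 1
      refine Finset.sum_congr rfl fun x hx => ?_
      exact hVe x (by rw [mem_FS.1 hx]; exact hN)
    have e2 : sumA A N (fun x => V (x.take T) + u (x.take T))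
        = 2 * sumA A N (fun x => w' (x.take T')) + sumA A N (fun x => u (x.take T)) := by
      rw [sumA_add, ← sumA_mul]
      congr 1
      unfold sumA
      refine Finset.sum_congr rfl fun x hx => ?_
      beta_reduce
      rw [hVe x (by rw [mem_FS.1 hx]; exact hN)]
    simp only
    rw [e1, e2]
    have e3 : (2 ^ (m + 1) - 1) * 2 ^ N = 2 * ((2 ^ m - 1) * 2 ^ N) + 2 ^ N := by
      have h7 : 1 ≤ 2 ^ m := Nat.one_le_two_pow
      obtain ⟨k, hk⟩ : ∃ k, 2 ^ m = k + 1 := ⟨2 ^ m - 1, by omega⟩
      rw [pow_succ, hk]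
      have : (k + 1) * 2 - 1 = 2 * k + 1 := by omega
      rw [this]
      simp only [Nat.add_sub_cancel]
      ring
    rw [e3]
    omega

end Pool.Agent.H561R3
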