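import Mathlib
import Pool.Agent.Helper227.SOne
import Pool.Agent.H561R3.NearMin

set_option autoImplicit false

namespace Pool.Agent.H561R3

open Encodable Pool.Agent.Helper227

variable {α β γ : Type*} [Primcodable α] [Primcodable β] [Primcodable γ]

theorem pr_pow : Primrec₂ (fun a b : ℕ => a ^ b) :=
  Primrec₂.unpaired'.1 Nat.Primrec.pow

theorem pr_sum {f : α → List β} {g : α → β → ℕ} (hf : Primrec f) (hg : Primrec₂ g) :
    Primrec fun a => ((f a).map (g a)).sum := by
  have h1 : Primrec fun a => ((f a).map (g a)).foldr (fun x s => x + s) 0 := by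
    refine Primrec.list_foldr (f := fun a => (f a).map (g a)) (g := fun _ => (0 : ℕ))
      (h := fun _ (p : ℕ × ℕ) => p.1 + p.2) (Primrec.list_map hf hg) (Primrec.const 0) ?_
    exact (Primrec.nat_add.comp (Primrec.fst.comp Primrec.snd)
      (Primrec.snd.comp Primrec.snd)).to₂
  exact h1.of_eq fun a => by rw [List.sum_eq_foldr]

theorem pr_strs : Primrec strs := by
  have h : Primrec₂ (fun (_ : ℕ) (L : List (List Bool)) =>
      L.flatMap (fun σ => [σ ++ [false], σ ++ [true]])) := by
    refine Primrec.list_flatMap (f := fun p : ℕ × List (List Bool) => p.2)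
      (g := fun _ σ => [σ ++ [false], σ ++ [true]]) Primrec.snd ?_
    refine Primrec.list_cons.comp ?_ (Primrec.list_cons.comp ?_ (Primrec.const []))
    · exact Primrec.list_append.comp Primrec.snd (Primrec.const [false])
    · exact Primrec.list_append.comp Primrec.snd (Primrec.const [true])
  refine (Primrec.nat_rec₁ [[]] h).of_eq fun n => ?_
  induction n with
  | zero => rfl
  | succ n ih => simp only [strs, ← ih]

/-- all the strings of length at most `b` -/
def upTo (b : ℕ) : List (List Bool) := (List.range (b + 1)).flatMap strs

theorem mem_upTo {b : ℕ} {x : List Bool} : x ∈ upTo b ↔ x.length ≤ b := by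
  unfold upTo
  simp only [List.mem_flatMap, List.mem_range, mem_strs]
  constructor
  · rintro ⟨a, h1, h2⟩; omega
  · intro h; exact ⟨x.length, by omega, rfl⟩

theorem pr_upTo : Primrec upTo :=
  Primrec.list_flatMap (Primrec.list_range.comp Primrec.succ) (pr_strs.comp Primrec.snd).to₂

/-- a bound for the codes of all the strings of length at most `b` -/
def KK (b : ℕ) : ℕ := ((upTo b).map (fun x => encode x + 1)).sum

theorem lt_KK {b : ℕ} {x : List Bool} (h : x.length ≤ b) : encode x < KK b := by
  have h1 : encode x + 1 ∈ (upTo b).map (fun x => encode x + 1) :=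
    List.mem_map.2 ⟨x, mem_upTo.2 h, rfl⟩
  have h2 := List.le_sum_of_mem h1
  unfold KK
  omega

theorem pr_KK : Primrec KK :=
  pr_sum (f := upTo) (g := fun _ x => encode x + 1) pr_upTo
    (Primrec.succ.comp (Primrec.encode.comp Primrec.snd)).to₂

/-- membership in the set of strings coded by `L` -/
def inL (L : List Bool) (x : List Bool) : Prop := L.getD (encode x) false = true

instance (L x : List Bool) : Decidable (inL L x) := by unfold inL; infer_instance

/-- the function on strings coded by `w` -/
def ev (w : List ℕ) (x : List Bool) : ℕ := w.getD (encode x) 0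

theorem pr_inL {L x : α → List Bool} (hL : Primrec L) (hx : Primrec x) :
    PrimrecPred fun a => inL (L a) (x a) :=
  Primrec.eq.comp ((Primrec.list_getD false).comp hL (Primrec.encode.comp hx)) (Primrec.const true)

theorem pr_ev {w : α → List ℕ} {x : α → List Bool} (hw : Primrec w) (hx : Primrec x) :
    Primrec fun a => ev (w a) (x a) :=
  (Primrec.list_getD 0).comp hw (Primrec.encode.comp hx)

/-- coding a set of strings up to length `b` -/
theorem exists_code_set (A : List Bool → Prop) (b : ℕ) :
    ∃ L ∈ strs (KK b), ∀ x : List Bool, x.length ≤ b → (inL L x ↔ A x) := by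
  classical
  refine ⟨(List.range (KK b)).map (fun i => match decode (α := List Bool) i with
    | some x => decide (A x)
    | none => false), mem_strs.2 (by simp), ?_⟩
  intro x hx
  have h1 := lt_KK hx
  unfold inL
  rw [List.getD_eq_getElem _ _ (by simpa using h1)]
  simp

theorem exists_code_fun (f : List Bool → ℕ) (b : ℕ) :
    ∃ w : List ℕ, ∀ x : List Bool, x.length ≤ b → ev w x = f x := by
  refine ⟨(List.range (KK b)).map (fun i => match decode (α := List Bool) i with
    | some x => f x
    | none => 0), ?_⟩
  intro x hx
  have h1 := lt_KK hx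
  unfold ev
  rw [List.getD_eq_getElem _ _ (by simpa using h1)]
  simp

end Pool.Agent.H561R3
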