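import Mathlib
import Pool.Agent.H561R3.Prim

set_option autoImplicit false

namespace Pool.Agent.H561R3

open Encodable Pool.Agent.Helper227

/-- `A` is an admissible set of strings for the parameter `d` -/
def Valid (B : ℕ → List Bool → Prop) (d : ℕ) (A : List Bool → Prop) : Prop :=
  (∀ x, B d x → A x) ∧ ∀ N, sumA A N (fun _ => 1) * 2 ^ d ≤ 2 ^ N

/-- the pair `(T, w)` is good at step `m` with witness `A` -/
def Good (B : ℕ → List Bool → Prop) (d m T : ℕ) (w : List ℕ) (A : List Bool → Prop) : Prop :=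
  Valid B d A ∧ Cov A m (2 ^ (m + 1 + d)) T (ev w) ∧ C4 A (m + 1) T (ev w)

/-- the parameters of the finite check: `(d, m, T, w, L, b)` -/
abbrev Par := ℕ × ℕ × ℕ × List ℕ × List Bool × ℕ

/-- finite approximation of `Good` at stage `b` with the witness coded by `L` -/
def good (Q : ℕ × List Bool → ℕ → Prop) (p : Par) : Prop :=
  (∀ x ∈ upTo p.2.2.2.2.2, ¬ Q (p.1, x) p.2.2.2.2.2 ∨ inL p.2.2.2.2.1 x) ∧
  (∀ N < p.2.2.2.2.2 + 1,
    ((strs N).map (fun x => if inL p.2.2.2.2.1 x then 1 else 0)).sum * 2 ^ p.1 ≤ 2 ^ N) ∧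
  (∀ x ∈ strs p.2.2.1, ∀ y ∈ strs p.2.2.1,
    ¬ (∀ K < p.2.2.1 + 1, ¬ (p.2.1 ≤ K) ∨ (inL p.2.2.2.2.1 (x.take K) ∨
      inL p.2.2.2.2.1 (y.take K))) ∨
    2 ^ (p.2.1 + 1 + p.1) ≤ ev p.2.2.2.1 x + ev p.2.2.2.1 y) ∧
  (∀ N < p.2.2.2.2.2 + 1, ¬ (p.2.2.1 ≤ N) ∨
    ((strs N).map (fun x => ev p.2.2.2.1 (x.take p.2.2.1))).sum ≤
      2 * ((strs N).map (fun x => if inL p.2.2.2.2.1 x then ev p.2.2.2.1 (x.take p.2.2.1)
        else 0)).sum + (2 ^ (p.2.1 + 1) - 1) * 2 ^ N)

section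
variable {α : Type*} [Primcodable α]

theorem pr_good {Q : ℕ × List Bool → ℕ → Prop} (hQ : PrimrecRel Q) : PrimrecPred (good Q) := by
  have d' : Primrec (fun p : Par => p.1) := Primrec.fst
  have m' : Primrec (fun p : Par => p.2.1) := Primrec.fst.comp Primrec.snd
  have T' : Primrec (fun p : Par => p.2.2.1) := Primrec.fst.comp (Primrec.snd.comp Primrec.snd)
  have w' : Primrec (fun p : Par => p.2.2.2.1) :=
    Primrec.fst.comp (Primrec.snd.comp (Primrec.snd.comp Primrec.snd))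
  have L' : Primrec (fun p : Par => p.2.2.2.2.1) :=
    Primrec.fst.comp (Primrec.snd.comp (Primrec.snd.comp (Primrec.snd.comp Primrec.snd)))
  have b' : Primrec (fun p : Par => p.2.2.2.2.2) :=
    Primrec.snd.comp (Primrec.snd.comp (Primrec.snd.comp (Primrec.snd.comp Primrec.snd)))
  refine PrimrecPred.and ?_ (PrimrecPred.and ?_ (PrimrecPred.and ?_ ?_))
  · refine PP.all_mem (α := Par) (p := fun p x => ¬ Q (p.1, x) p.2.2.2.2.2 ∨ inL p.2.2.2.2.1 x)
      ?_ (pr_upTo.comp b')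
    refine PrimrecPred.or (PrimrecPred.not ?_) ?_
    · exact hQ.comp ((d'.comp Primrec.fst).pair Primrec.snd) (b'.comp Primrec.fst)
    · exact pr_inL (L'.comp Primrec.fst) Primrec.snd
  · refine PP.all_lt (α := Par) (p := fun p N =>
      ((strs N).map (fun x => if inL p.2.2.2.2.1 x then 1 else 0)).sum * 2 ^ p.1 ≤ 2 ^ N)
      ?_ (Primrec.succ.comp b')
    refine Primrec.nat_le.comp (Primrec.nat_mul.comp ?_ (pr_pow.comp (Primrec.const 2)
      (d'.comp Primrec.fst))) (pr_pow.comp (Primrec.const 2) Primrec.snd)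
    refine pr_sum (f := fun p : Par × ℕ => strs p.2)
      (g := fun p x => if inL p.1.2.2.2.2.1 x then 1 else 0) (pr_strs.comp Primrec.snd) ?_
    exact Primrec.ite (pr_inL (L'.comp (Primrec.fst.comp Primrec.fst)) Primrec.snd)
      (Primrec.const 1) (Primrec.const 0)
  · refine PP.all_mem (α := Par) (p := fun p x => ∀ y ∈ strs p.2.2.1,
      ¬ (∀ K < p.2.2.1 + 1, ¬ (p.2.1 ≤ K) ∨ (inL p.2.2.2.2.1 (x.take K) ∨
      inL p.2.2.2.2.1 (y.take K))) ∨
      2 ^ (p.2.1 + 1 + p.1) ≤ ev p.2.2.2.1 x + ev p.2.2.2.1 y) ?_ (pr_strs.comp T')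
    refine PP.all_mem (α := Par × List Bool) (p := fun p y =>
      ¬ (∀ K < p.1.2.2.1 + 1, ¬ (p.1.2.1 ≤ K) ∨ (inL p.1.2.2.2.2.1 (p.2.take K) ∨
      inL p.1.2.2.2.2.1 (y.take K))) ∨
      2 ^ (p.1.2.1 + 1 + p.1.1) ≤ ev p.1.2.2.2.1 p.2 + ev p.1.2.2.2.1 y) ?_
      (pr_strs.comp (T'.comp Primrec.fst))
    refine PrimrecPred.or (PrimrecPred.not ?_) ?_
    · refine PP.all_lt (α := (Par × List Bool) × List Bool) (p := fun p K =>
        ¬ (p.1.1.2.1 ≤ K) ∨ (inL p.1.1.2.2.2.2.1 (p.1.2.take K) ∨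
        inL p.1.1.2.2.2.2.1 (p.2.take K))) ?_
        (Primrec.succ.comp (T'.comp (Primrec.fst.comp Primrec.fst)))
      have c1 : Primrec (fun p : ((Par × List Bool) × List Bool) × ℕ => p.1.1.1) :=
        Primrec.fst.comp (Primrec.fst.comp Primrec.fst)
      refine PrimrecPred.or (PrimrecPred.not ?_) (PrimrecPred.or ?_ ?_)
      · exact Primrec.nat_le.comp (m'.comp c1) Primrec.snd
      · exact pr_inL (L'.comp c1) (Primrec.list_take.comp Primrec.snd
          (Primrec.snd.comp (Primrec.fst.comp Primrec.fst)))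
      · exact pr_inL (L'.comp c1) (Primrec.list_take.comp Primrec.snd
          (Primrec.snd.comp Primrec.fst))
    · have c1 : Primrec (fun p : (Par × List Bool) × List Bool => p.1.1) :=
        Primrec.fst.comp Primrec.fst
      refine Primrec.nat_le.comp (pr_pow.comp (Primrec.const 2) (Primrec.nat_add.comp
        (Primrec.succ.comp (m'.comp c1)) (d'.comp c1))) (Primrec.nat_add.comp ?_ ?_)
      · exact pr_ev (w'.comp c1) (Primrec.snd.comp Primrec.fst)
      · exact pr_ev (w'.comp c1) Primrec.snd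
  · refine PP.all_lt (α := Par) (p := fun p N => ¬ (p.2.2.1 ≤ N) ∨
      ((strs N).map (fun x => ev p.2.2.2.1 (x.take p.2.2.1))).sum ≤
      2 * ((strs N).map (fun x => if inL p.2.2.2.2.1 x then ev p.2.2.2.1 (x.take p.2.2.1)
        else 0)).sum + (2 ^ (p.2.1 + 1) - 1) * 2 ^ N) ?_ (Primrec.succ.comp b')
    refine PrimrecPred.or (PrimrecPred.not ?_) ?_
    · exact Primrec.nat_le.comp (T'.comp Primrec.fst) Primrec.snd
    · have c1 : Primrec (fun p : (Par × ℕ) × List Bool => p.1.1) :=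
        Primrec.fst.comp Primrec.fst
      refine Primrec.nat_le.comp ?_ (Primrec.nat_add.comp (Primrec.nat_mul.comp
        (Primrec.const 2) ?_) (Primrec.nat_mul.comp (Primrec.nat_sub.comp (pr_pow.comp
        (Primrec.const 2) (Primrec.succ.comp (m'.comp Primrec.fst))) (Primrec.const 1))
        (pr_pow.comp (Primrec.const 2) Primrec.snd)))
      · refine pr_sum (f := fun p : Par × ℕ => strs p.2)
          (g := fun p x => ev p.1.2.2.2.1 (x.take p.1.2.2.1)) (pr_strs.comp Primrec.snd) ?_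
        exact pr_ev (w'.comp c1) (Primrec.list_take.comp (T'.comp c1) Primrec.snd)
      · refine pr_sum (f := fun p : Par × ℕ => strs p.2)
          (g := fun p x => if inL p.1.2.2.2.2.1 x then ev p.1.2.2.2.1 (x.take p.1.2.2.1) else 0)
          (pr_strs.comp Primrec.snd) ?_
        refine Primrec.ite (pr_inL (L'.comp c1) Primrec.snd) ?_ (Primrec.const 0)
        exact pr_ev (w'.comp c1) (Primrec.list_take.comp (T'.comp c1) Primrec.snd)

end

end Pool.Agent.H561R3
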