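import Mathlib
import Pool.Agent.H561R3.Good

set_option autoImplicit false

namespace Pool.Agent.H561R3

open Encodable Pool.Agent.Helper227

/-- `(T, w)` is alive at step `m`: good witnesses exist at all stages -/
def Alive (Q : ℕ × List Bool → ℕ → Prop) (d m T : ℕ) (w : List ℕ) : Prop :=
  ∀ b, T ≤ b → ∃ L ∈ strs (KK b), good Q (d, m, T, w, L, b)

theorem map_sum_eq_sumA {A : List Bool → Prop} {L : List Bool} {N : ℕ}
    (h : ∀ x : List Bool, x.length ≤ N → (inL L x ↔ A x)) (f : List Bool → ℕ) :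
    ((strs N).map (fun x => if inL L x then f x else 0)).sum = sumA A N f := by
  classical
  unfold sumA
  rw [sum_FS]
  congr 1
  refine List.map_congr_left fun x hx => ?_
  have h1 := h x (by rw [mem_strs.1 hx])
  by_cases h2 : A x
  · rw [if_pos h2, if_pos (h1.2 h2)]
  · rw [if_neg h2, if_neg (fun h3 => h2 (h1.1 h3))]

variable {Q : ℕ × List Bool → ℕ → Prop} {B : ℕ → List Bool → Prop}

theorem alive_of_good (hB : ∀ d x, B d x ↔ ∃ n, Q (d, x) n) {d m T : ℕ} {w : List ℕ}
    {A : List Bool → Prop} (h : Good B d m T w A) : Alive Q d m T w := by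
  intro b hb
  obtain ⟨L, hL, hLA⟩ := exists_code_set A b
  obtain ⟨⟨h1, h2⟩, h3, h4⟩ := h
  refine ⟨L, hL, ?_, ?_, ?_, ?_⟩
  · intro x hx
    by_cases hq : Q (d, x) b
    · right
      exact (hLA x (mem_upTo.1 hx)).2 (h1 x ((hB d x).2 ⟨b, hq⟩))
    · left; exact hq
  · intro N hN
    simp only at hN ⊢
    rw [map_sum_eq_sumA (A := A) (fun x hx => hLA x (by omega)) (fun _ => 1)]
    exact h2 N
  · intro x hx y hy
    simp only at hx hy ⊢
    by_cases hK : ∀ K < T + 1, ¬ (m ≤ K) ∨ (inL L (x.take K) ∨ inL L (y.take K))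
    · right
      refine h3 x (mem_FS.2 (mem_strs.1 hx)) y (mem_FS.2 (mem_strs.1 hy)) ?_
      intro K hK1 hK2
      rcases hK K (by omega) with h5 | h5 | h5
      · exact absurd hK1 h5
      · left
        exact (hLA _ (by rw [List.length_take]; omega)).1 h5
      · right
        exact (hLA _ (by rw [List.length_take]; omega)).1 h5
    · left; exact hK
  · intro N hN
    simp only at hN ⊢
    by_cases hT : T ≤ N
    · right
      rw [map_sum_eq_sumA (A := A) (fun x hx => hLA x (by omega)), ← sum_FS]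
      exact h4 N hT
    · left; exact hT

theorem good_of_alive (hB : ∀ d x, B d x ↔ ∃ n, Q (d, x) n)
    (hmono : ∀ a m n, m ≤ n → Q a m → Q a n) {d m T : ℕ} {w : List ℕ}
    (h : Alive Q d m T w) : ∃ A, Good B d m T w A := by
  classical
  choose! Lf hLf1 hLf2 using h
  let U : Ultrafilter ℕ := Filter.hyperfilter ℕ
  let A : List Bool → Prop := fun x => ∀ᶠ b in (U : Filter ℕ), inL (Lf b) x
  have hagree1 : ∀ x, ∀ᶠ b in (U : Filter ℕ), (inL (Lf b) x ↔ A x) := by
    intro x
    by_cases hA : A x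
    · exact hA.mono fun b hb => ⟨fun _ => hA, fun _ => hb⟩
    · have : ∀ᶠ b in (U : Filter ℕ), ¬ inL (Lf b) x := Ultrafilter.eventually_not.2 hA
      exact this.mono fun b hb => ⟨fun h => absurd h hb, fun h => absurd h hA⟩
  have hge : ∀ b0, ∀ᶠ b in (U : Filter ℕ), b0 ≤ b := by
    intro b0
    have h1 : ∀ᶠ b in Filter.cofinite, b0 ≤ b := by
      rw [Nat.cofinite_eq_atTop]
      exact Filter.eventually_ge_atTop b0
    exact h1.filter_mono Filter.hyperfilter_le_cofinite
  have hagree : ∀ b0, ∃ b, b0 ≤ b ∧ T ≤ b ∧ ∀ x : List Bool, x.length ≤ b0 → (inL (Lf b) x ↔ A x) := by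
    intro b0
    have h1 : ∀ᶠ b in (U : Filter ℕ), ∀ x ∈ (upTo b0).toFinset, (inL (Lf b) x ↔ A x) := by
      rw [Filter.eventually_all_finset]
      intro x _
      exact hagree1 x
    obtain ⟨b, ⟨h2, h3⟩, h4⟩ := ((h1.and (hge b0)).and (hge T)).exists
    exact ⟨b, h3, h4, fun x hx => h2 x (by rw [List.mem_toFinset]; exact mem_upTo.2 hx)⟩
  refine ⟨A, ⟨?_, ?_⟩, ?_, ?_⟩
  · intro x hx
    obtain ⟨n, hn⟩ := (hB d x).1 hx
    obtain ⟨b, h1, h2, h3⟩ := hagree (max x.length n)
    have h4 := (hLf2 b h2).1 x (mem_upTo.2 (by simp only; omega))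
    simp only at h4
    rcases h4 with h4 | h4
    · exact absurd (hmono _ _ _ (by omega) hn) h4
    · exact (h3 x (by omega)).1 h4
  · intro N
    obtain ⟨b, h1, h2, h3⟩ := hagree N
    have h4 := (hLf2 b h2).2.1 N (by simp only; omega)
    simp only at h4
    rwa [map_sum_eq_sumA (A := A) (fun x hx => h3 x (by omega)) (fun _ => 1)] at h4
  · intro x hx y hy hK
    obtain ⟨b, h1, h2, h3⟩ := hagree T
    have h4 := (hLf2 b h2).2.2.1 x (mem_strs.2 (mem_FS.1 hx)) y (mem_strs.2 (mem_FS.1 hy))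
    simp only at h4
    rcases h4 with h4 | h4
    · exfalso
      apply h4
      intro K hK1
      by_cases hm : m ≤ K
      · right
        rcases hK K hm (by omega) with h5 | h5
        · left; exact (h3 _ (by rw [List.length_take]; omega)).2 h5
        · right; exact (h3 _ (by rw [List.length_take]; omega)).2 h5
      · left; exact hm
    · exact h4
  · intro N hN
    obtain ⟨b, h1, h2, h3⟩ := hagree N
    have h4 := (hLf2 b h2).2.2.2 N (by simp only; omega)
    simp only at h4
    rcases h4 with h4 | h4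
    · exact absurd hN h4
    · rw [map_sum_eq_sumA (A := A) (fun x hx => h3 x (by omega)), ← sum_FS] at h4
      exact h4

end Pool.Agent.H561R3
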