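import Mathlib
import Pool.Agent.H561R3.Alive

set_option autoImplicit false

namespace Pool.Agent.H561R3

open Encodable Pool.Agent.Helper227

/-- the static part of one step of the chain -/
def Ext (d m : ℕ) (e' e : ℕ × List ℕ) : Prop :=
  e'.1 ≤ e.1 ∧ m ≤ e.1 ∧
    ∀ x ∈ strs e.1, 2 * ev e'.2 (x.take e'.1) ≤ ev e.2 x ∧ ev e.2 x ≤ 2 ^ (m + 1 + d)

/-- one step of the chain -/
def Step (Q : ℕ × List Bool → ℕ → Prop) (d m : ℕ) (e' e : ℕ × List ℕ) : Prop :=
  Ext d m e' e ∧ Alive Q d m e.1 e.2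

/-- the canonical (least code) next element of the chain -/
def Canon (Q : ℕ × List Bool → ℕ → Prop) (d m : ℕ) (e' e : ℕ × List ℕ) : Prop :=
  Step Q d m e' e ∧ ∀ e'' : ℕ × List ℕ, encode e'' < encode e → ¬ Step Q d m e' e''

theorem Canon.unique {Q : ℕ × List Bool → ℕ → Prop} {d m : ℕ} {e' e₁ e₂ : ℕ × List ℕ}
    (h1 : Canon Q d m e' e₁) (h2 : Canon Q d m e' e₂) : e₁ = e₂ := by
  have a1 : ¬ encode e₁ < encode e₂ := fun h => h2.2 _ h h1.1
  have a2 : ¬ encode e₂ < encode e₁ := fun h => h1.2 _ h h2.1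
  exact encode_injective (by omega)

theorem exists_canon {Q : ℕ × List Bool → ℕ → Prop} {d m : ℕ} {e' : ℕ × List ℕ}
    (h : ∃ e, Step Q d m e' e) : ∃ e, Canon Q d m e' e := by
  classical
  have hex : ∃ n, ∃ e : ℕ × List ℕ, encode e = n ∧ Step Q d m e' e := by
    obtain ⟨e, he⟩ := h
    exact ⟨_, e, rfl, he⟩
  obtain ⟨e, h1, h2⟩ := Nat.find_spec hex
  refine ⟨e, h2, fun e'' h3 h4 => ?_⟩
  rw [h1] at h3
  exact Nat.find_min hex h3 ⟨e'', rfl, h4⟩

open Classical in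
/-- the canonical chain -/
noncomputable def E (Q : ℕ × List Bool → ℕ → Prop) (d : ℕ) : ℕ → ℕ × List ℕ
  | 0 => (0, [])
  | m + 1 => if h : ∃ e, Canon Q d m (E Q d m) e then h.choose else (0, [])

theorem ev_nil (x : List Bool) : ev [] x = 0 := by simp [ev]

section
variable {Q : ℕ × List Bool → ℕ → Prop} {B : ℕ → List Bool → Prop}

/-- the invariant of the chain -/
def Inv (Q : ℕ × List Bool → ℕ → Prop) (B : ℕ → List Bool → Prop) (d m : ℕ) : Prop :=
  ∃ A, Valid B d A ∧ C4 A m (E Q d m).1 (ev (E Q d m).2) ∧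
    ∀ x ∈ FS (E Q d m).1, ev (E Q d m).2 x ≤ 2 ^ (m + d)

theorem inv_zero (hcount : ∀ d N, sumA (B d) N (fun _ => 1) * 2 ^ d ≤ 2 ^ N) (d : ℕ) :
    Inv Q B d 0 := by
  refine ⟨B d, ⟨fun x h => h, hcount d⟩, ?_, ?_⟩
  · intro N _
    simp [E, ev_nil]
  · intro x _
    simp [E, ev_nil]

theorem step_ex (hB : ∀ d x, B d x ↔ ∃ n, Q (d, x) n) {d m : ℕ} (h : Inv Q B d m) :
    ∃ e, Step Q d m (E Q d m) e := by
  obtain ⟨A, h1, h2, h3⟩ := h
  obtain ⟨T, hT1, hT2, w, hw1, hw2, hw3⟩ := step_exists A m d (E Q d m).1 (ev (E Q d m).2) h3 h2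
  obtain ⟨wl, hwl⟩ := exists_code_fun w T
  have hlen : ∀ x ∈ FS T, ev wl x = w x := fun x hx => hwl x (by rw [mem_FS.1 hx])
  refine ⟨(T, wl), ⟨hT1, hT2, ?_⟩, ?_⟩
  · intro x hx
    have hx' : x ∈ FS T := mem_FS.2 (mem_strs.1 hx)
    have := hw1 x hx'
    simp only
    rw [hlen x hx']
    exact this
  · refine alive_of_good hB (A := A) ⟨h1, ?_, ?_⟩
    · intro x hx y hy hK
      rw [hlen x hx, hlen y hy]
      exact hw2 x hx y hy hK
    · intro N hN
      have e1 : ∀ x ∈ FS N, ev wl (x.take T) = w (x.take T) := by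
        intro x hx
        exact hwl _ (by rw [List.length_take]; omega)
      have := hw3 N hN
      simp only
      unfold sumA at this ⊢
      rw [Finset.sum_congr rfl e1]
      refine this.trans (le_of_eq ?_)
      congr 2
      refine Finset.sum_congr rfl fun x hx => ?_
      beta_reduce
      rw [e1 x hx]

theorem canon_of_inv (hB : ∀ d x, B d x ↔ ∃ n, Q (d, x) n) {d m : ℕ} (h : Inv Q B d m) :
    Canon Q d m (E Q d m) (E Q d (m + 1)) := by
  have h1 := exists_canon (step_ex hB h)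
  have h2 : E Q d (m + 1) = h1.choose := by
    rw [E, dif_pos h1]
  rw [h2]
  exact h1.choose_spec

theorem inv_succ (hB : ∀ d x, B d x ↔ ∃ n, Q (d, x) n)
    (hmono : ∀ a m n, m ≤ n → Q a m → Q a n) {d m : ℕ} (h : Inv Q B d m) :
    Inv Q B d (m + 1) := by
  have h1 := canon_of_inv hB h
  obtain ⟨A, hA⟩ := good_of_alive hB hmono h1.1.2
  refine ⟨A, hA.1, hA.2.2, ?_⟩
  intro x hx
  exact (h1.1.1.2.2 x (mem_strs.2 (mem_FS.1 hx))).2

theorem inv_all (hB : ∀ d x, B d x ↔ ∃ n, Q (d, x) n)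
    (hmono : ∀ a m n, m ≤ n → Q a m → Q a n)
    (hcount : ∀ d N, sumA (B d) N (fun _ => 1) * 2 ^ d ≤ 2 ^ N) (d m : ℕ) : Inv Q B d m := by
  induction m with
  | zero => exact inv_zero hcount d
  | succ m ih => exact inv_succ hB hmono ih

/-- `x` is caught at step `m` -/
def Hit (Q : ℕ × List Bool → ℕ → Prop) (d m : ℕ) (x : List Bool) : Prop :=
  2 ^ (m + d) ≤ 2 * ev (E Q d m).2 x

theorem sumA_le_mul {A : List Bool → Prop} {N c : ℕ} {f : List Bool → ℕ}
    (h : ∀ x ∈ FS N, f x ≤ c) : sumA A N f ≤ c * sumA A N (fun _ => 1) := by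
  classical
  unfold sumA
  rw [Finset.mul_sum]
  refine Finset.sum_le_sum fun x hx => ?_
  split_ifs
  · simpa using h x hx
  · simp

open Classical in
theorem card_hit {d m : ℕ} (h : Inv Q B d m) :
    2 ^ d * ((FS (E Q d m).1).filter (Hit Q d m)).card ≤ 6 * 2 ^ (E Q d m).1 := by
  obtain ⟨A, h1, h2, h3⟩ := h
  set T := (E Q d m).1 with hT
  set w := ev (E Q d m).2 with hw
  have e1 : ∑ x ∈ FS T, w (x.take T) = ∑ x ∈ FS T, w x := by
    refine Finset.sum_congr rfl fun x hx => ?_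
    rw [List.take_of_length_le (by rw [mem_FS.1 hx])]
  have e2 : sumA A T (fun x => w (x.take T)) = sumA A T w := by
    unfold sumA
    refine Finset.sum_congr rfl fun x hx => ?_
    beta_reduce
    rw [List.take_of_length_le (by rw [mem_FS.1 hx])]
  have h4 := h2 T le_rfl
  rw [e1, e2] at h4
  have h5 := sumA_le_mul (A := A) h3
  have h6 := h1.2 T
  have h7 : ((FS T).filter (Hit Q d m)).card * 2 ^ (m + d) ≤ 2 * ∑ x ∈ FS T, w x := by
    rw [Finset.card_eq_sum_ones, Finset.sum_mul, Finset.mul_sum]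
    refine (Finset.sum_le_sum (g := fun x => 2 * w x) fun x hx => ?_).trans
      (Finset.sum_le_sum_of_subset (Finset.filter_subset _ _))
    have := (Finset.mem_filter.1 hx).2
    simpa [Hit] using this
  have h8 : (2 ^ m - 1) * 2 ^ T ≤ 2 ^ m * 2 ^ T := Nat.mul_le_mul_right _ (Nat.sub_le _ _)
  have h9 : 2 ^ (m + d) * sumA A T (fun _ => 1) ≤ 2 ^ m * 2 ^ T := by
    rw [pow_add, mul_assoc]
    refine Nat.mul_le_mul_left _ ?_
    rw [mul_comm]; exact h6
  have h10 : 2 ^ m * (2 ^ d * ((FS T).filter (Hit Q d m)).card) ≤ 2 ^ m * (6 * 2 ^ T) := by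
    have : 2 ^ m * (2 ^ d * ((FS T).filter (Hit Q d m)).card)
        = ((FS T).filter (Hit Q d m)).card * 2 ^ (m + d) := by rw [pow_add]; ring
    rw [this]
    have : 2 ^ m * (6 * 2 ^ T) = 6 * (2 ^ m * 2 ^ T) := by ring
    rw [this]
    omega
  exact Nat.le_of_mul_le_mul_left h10 (by positivity)

theorem hit_mono {d m : ℕ} (h : Canon Q d m (E Q d m) (E Q d (m + 1))) {x : List Bool}
    (hx : x.length = (E Q d (m + 1)).1) (hh : Hit Q d m (x.take (E Q d m).1)) :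
    Hit Q d (m + 1) x := by
  unfold Hit at hh ⊢
  have h1 := (h.1.1.2.2 x (mem_strs.2 hx)).1
  have h2 : 2 ^ (m + 1 + d) = 2 * 2 ^ (m + d) := by rw [← pow_succ']; congr 1; omega
  rw [h2]
  omega

open Classical in
/-- the strings newly caught at step `m + 1` -/
noncomputable def newset (Q : ℕ × List Bool → ℕ → Prop) (d m : ℕ) : Finset (List Bool) :=
  (FS (E Q d (m + 1)).1).filter
    (fun x => Hit Q d (m + 1) x ∧ ¬ Hit Q d m (x.take (E Q d m).1))

open Classical in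
theorem card_new {d m : ℕ} (h : Canon Q d m (E Q d m) (E Q d (m + 1))) :
    (newset Q d m).card + 2 ^ ((E Q d (m + 1)).1 - (E Q d m).1) *
      ((FS (E Q d m).1).filter (Hit Q d m)).card
      = ((FS (E Q d (m + 1)).1).filter (Hit Q d (m + 1))).card := by
  have h1 := sum_take h.1.1.1 (fun x => if Hit Q d m x then 1 else 0)
  rw [Finset.sum_boole, Finset.sum_boole] at h1
  simp only [Nat.cast_id] at h1
  rw [← h1, newset]
  rw [← Finset.card_union_of_disjoint]
  · congr 1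
    ext x
    simp only [Finset.mem_union, Finset.mem_filter]
    constructor
    · rintro (⟨h2, h3, h4⟩ | ⟨h2, h3⟩)
      · exact ⟨h2, h3⟩
      · exact ⟨h2, hit_mono h (mem_FS.1 h2) h3⟩
    · rintro ⟨h2, h3⟩
      by_cases h4 : Hit Q d m (x.take (E Q d m).1)
      · right; exact ⟨h2, h4⟩
      · left; exact ⟨h2, h3, h4⟩
  · rw [Finset.disjoint_left]
    intro x h2 h3
    exact (Finset.mem_filter.1 h2).2.2 (Finset.mem_filter.1 h3).2

/-- the weight of a finite set of strings -/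
noncomputable def wt (S : Finset (List Bool)) : ℝ := ∑ x ∈ S, ((1 : ℝ) / 2) ^ x.length

open Classical in
theorem wt_new (d m : ℕ) :
    wt (newset Q d m) = (newset Q d m).card * ((1 : ℝ) / 2) ^ (E Q d (m + 1)).1 := by
  unfold wt
  rw [Finset.sum_congr rfl (g := fun _ => ((1 : ℝ) / 2) ^ (E Q d (m + 1)).1), Finset.sum_const,
    nsmul_eq_mul]
  intro x hx
  unfold newset at hx
  rw [Finset.mem_filter] at hx
  rw [mem_FS.1 hx.1]

open Classical in
theorem sum_new (hc : ∀ d m, Canon Q d m (E Q d m) (E Q d (m + 1))) (d J : ℕ) :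
    ∑ m ∈ Finset.range J, wt (newset Q d m) ≤
      ((FS (E Q d J).1).filter (Hit Q d J)).card * ((1 : ℝ) / 2) ^ (E Q d J).1 := by
  induction J with
  | zero => rw [Finset.sum_range_zero]; positivity
  | succ J ih =>
    rw [Finset.sum_range_succ, wt_new, ← card_new (hc d J)]
    push_cast
    rw [add_mul, add_comm]
    refine add_le_add le_rfl (ih.trans (le_of_eq ?_))
    have h1 := (hc d J).1.1.1
    have h2 : ((1 : ℝ) / 2) ^ (E Q d (J + 1)).1
        = ((1 : ℝ) / 2) ^ ((E Q d (J + 1)).1 - (E Q d J).1) * ((1 : ℝ) / 2) ^ (E Q d J).1 := by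
      rw [← pow_add]; congr 1; omega
    rw [h2]
    have h3 : (2 : ℝ) ^ ((E Q d (J + 1)).1 - (E Q d J).1) *
        ((1 : ℝ) / 2) ^ ((E Q d (J + 1)).1 - (E Q d J).1) = 1 := by
      rw [← mul_pow]; norm_num
    calc _ = ((2 : ℝ) ^ ((E Q d (J + 1)).1 - (E Q d J).1) *
        ((1 : ℝ) / 2) ^ ((E Q d (J + 1)).1 - (E Q d J).1)) *
        ((((FS (E Q d J).1).filter (Hit Q d J)).card : ℝ) * ((1 : ℝ) / 2) ^ (E Q d J).1) := by
          rw [h3, one_mul]
      _ = _ := by ring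

theorem sum_new_le (hB : ∀ d x, B d x ↔ ∃ n, Q (d, x) n)
    (hmono : ∀ a m n, m ≤ n → Q a m → Q a n)
    (hcount : ∀ d N, sumA (B d) N (fun _ => 1) * 2 ^ d ≤ 2 ^ N) (d J : ℕ) :
    ∑ m ∈ Finset.range J, wt (newset Q d m) ≤ 6 * ((1 : ℝ) / 2) ^ d := by
  classical
  have hinv := inv_all hB hmono hcount
  refine (sum_new (fun d m => canon_of_inv hB (hinv d m)) d J).trans ?_
  have h1 := card_hit (hinv d J)
  have h2 : (2 : ℝ) ^ d * (((FS (E Q d J).1).filter (Hit Q d J)).card : ℝ)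
      ≤ 6 * 2 ^ (E Q d J).1 := by exact_mod_cast h1
  have h3 : (0 : ℝ) < 2 ^ d := by positivity
  have h4 : (0 : ℝ) < 2 ^ (E Q d J).1 := by positivity
  rw [one_div, inv_pow, inv_pow]
  rw [← div_eq_mul_inv, ← div_eq_mul_inv, div_le_div_iff₀ h4 h3]
  linarith

end

end Pool.Agent.H561R3
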