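import Mathlib
import Pool.Agent.H561R3.Chain

set_option autoImplicit false

namespace Pool.Agent.H561R3

open Encodable Pool.Agent.Helper227

/-- predicates of the form `∃ z, P ∧ ¬ N` with `P`, `N` Sigma-one have computable Sigma-two
presentations -/
theorem sigma_two {α β : Type*} [Primcodable α] [Primcodable β] {P N : α × β → Prop}
    (hP : S1 P) (hN : S1 N) : ∃ R : α × ℕ × ℕ → Bool, Computable R ∧
      ∀ x, (∃ z, P (x, z) ∧ ¬ N (x, z)) ↔ ∃ a, ∀ b, R (x, a, b) = true := by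
  obtain ⟨p, hp, mp, ep⟩ := hP
  obtain ⟨n, hn, mn, en⟩ := hN
  have h : PrimrecPred fun y : α × ℕ × ℕ => ∃ z ∈ (decode (α := β × ℕ) y.2.1).toList,
      p (y.1, z.1) z.2 ∧ ¬ n (y.1, z.1) y.2.2 := by
    refine PP.ex_mem (α := α × ℕ × ℕ) (p := fun y (z : β × ℕ) =>
      p (y.1, z.1) z.2 ∧ ¬ n (y.1, z.1) y.2.2) ?_
      (Primrec.optionToList.comp (Primrec.decode.comp (Primrec.fst.comp Primrec.snd)))
    refine PrimrecPred.and ?_ (PrimrecPred.not ?_)
    · exact hp.comp ((Primrec.fst.comp Primrec.fst).pair (Primrec.fst.comp Primrec.snd))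
        (Primrec.snd.comp Primrec.snd)
    · exact hn.comp ((Primrec.fst.comp Primrec.fst).pair (Primrec.fst.comp Primrec.snd))
        (Primrec.snd.comp (Primrec.snd.comp Primrec.fst))
  obtain ⟨hd, h2⟩ := h
  refine ⟨_, h2.to_comp, fun x => ?_⟩
  simp only [decide_eq_true_eq, Option.mem_toList]
  constructor
  · rintro ⟨z, h3, h4⟩
    obtain ⟨s, hs⟩ := (ep (x, z)).1 h3
    refine ⟨encode (z, s), fun b => ⟨(z, s), encodek _, hs, fun h5 => h4 ?_⟩⟩
    exact (en (x, z)).2 ⟨b, h5⟩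
  · rintro ⟨a, ha⟩
    obtain ⟨z, h3, h4, _⟩ := ha 0
    refine ⟨z.1, (ep (x, z.1)).2 ⟨z.2, h4⟩, fun h5 => ?_⟩
    obtain ⟨t, ht⟩ := (en (x, z.1)).1 h5
    obtain ⟨z', h6, _, h7⟩ := ha t
    rw [h3] at h6
    cases h6
    exact h7 ht

/-- the negation of `Alive` -/
def Dead (Q : ℕ × List Bool → ℕ → Prop) (p : ℕ × ℕ × ℕ × List ℕ) : Prop :=
  ∃ b, p.2.2.1 ≤ b ∧ ∀ L ∈ strs (KK b), ¬ good Q (p.1, p.2.1, p.2.2.1, p.2.2.2, L, b)

theorem dead_iff {Q : ℕ × List Bool → ℕ → Prop} {d m T : ℕ} {w : List ℕ} :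
    Dead Q (d, m, T, w) ↔ ¬ Alive Q d m T w := by
  unfold Dead Alive
  push Not
  rfl

theorem s1_dead {Q : ℕ × List Bool → ℕ → Prop} (hQ : PrimrecRel Q) : S1 (Dead Q) := by
  refine S1.ex (α := ℕ × ℕ × ℕ × List ℕ) (β := ℕ) (p := fun p b => p.2.2.1 ≤ b ∧
    ∀ L ∈ strs (KK b), ¬ good Q (p.1, p.2.1, p.2.2.1, p.2.2.2, L, b)) (S1.of_prim ?_)
  refine PrimrecPred.and ?_ ?_
  · exact Primrec.nat_le.comp (Primrec.fst.comp (Primrec.snd.comp (Primrec.snd.comp Primrec.fst)))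
      Primrec.snd
  · refine PP.all_mem (α := (ℕ × ℕ × ℕ × List ℕ) × ℕ) (p := fun p L =>
      ¬ good Q (p.1.1, p.1.2.1, p.1.2.2.1, p.1.2.2.2, L, p.2)) ?_
      (pr_strs.comp (pr_KK.comp Primrec.snd))
    refine PrimrecPred.not ((pr_good hQ).comp ?_)
    have c1 : Primrec (fun p : ((ℕ × ℕ × ℕ × List ℕ) × ℕ) × List Bool => p.1.1) :=
      Primrec.fst.comp Primrec.fst
    refine (Primrec.fst.comp c1).pair ((Primrec.fst.comp (Primrec.snd.comp c1)).pair
      ((Primrec.fst.comp (Primrec.snd.comp (Primrec.snd.comp c1))).pair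
      ((Primrec.snd.comp (Primrec.snd.comp (Primrec.snd.comp c1))).pair
      (Primrec.snd.pair (Primrec.snd.comp Primrec.fst)))))

section
variable {α : Type*} [Primcodable α]

theorem pr_ext {d m : α → ℕ} {e' e : α → ℕ × List ℕ} (hd : Primrec d) (hm : Primrec m)
    (he' : Primrec e') (he : Primrec e) : PrimrecPred fun a => Ext (d a) (m a) (e' a) (e a) := by
  unfold Ext
  refine PrimrecPred.and ?_ (PrimrecPred.and ?_ ?_)
  · exact Primrec.nat_le.comp (Primrec.fst.comp he') (Primrec.fst.comp he)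
  · exact Primrec.nat_le.comp hm (Primrec.fst.comp he)
  · refine PP.all_mem (α := α) (p := fun a x => 2 * ev (e' a).2 (x.take (e' a).1) ≤ ev (e a).2 x ∧
      ev (e a).2 x ≤ 2 ^ (m a + 1 + d a)) ?_ (pr_strs.comp (Primrec.fst.comp he))
    have h1 : Primrec fun p : α × List Bool => ev (e p.1).2 p.2 :=
      pr_ev (Primrec.snd.comp (he.comp Primrec.fst)) Primrec.snd
    refine PrimrecPred.and ?_ ?_
    · refine Primrec.nat_le.comp (Primrec.nat_mul.comp (Primrec.const 2) ?_) h1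
      exact pr_ev (Primrec.snd.comp (he'.comp Primrec.fst)) (Primrec.list_take.comp
        (Primrec.fst.comp (he'.comp Primrec.fst)) Primrec.snd)
    · exact Primrec.nat_le.comp h1 (pr_pow.comp (Primrec.const 2) (Primrec.nat_add.comp
        (Primrec.succ.comp (hm.comp Primrec.fst)) (hd.comp Primrec.fst)))

/-- the Sigma-one part of canonicity: all smaller codes fail -/
def Least (Q : ℕ × List Bool → ℕ → Prop) (d m : ℕ) (e' e : ℕ × List ℕ) : Prop :=
  ∀ c < encode e, ∀ e'' ∈ (decode (α := ℕ × List ℕ) c).toList,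
    (¬ (encode e'' = c) ∨ ¬ Ext d m e' e'') ∨ Dead Q (d, m, e''.1, e''.2)

theorem canon_iff {Q : ℕ × List Bool → ℕ → Prop} {d m : ℕ} {e' e : ℕ × List ℕ} :
    Canon Q d m e' e ↔ Ext d m e' e ∧ Least Q d m e' e ∧ ¬ Dead Q (d, m, e.1, e.2) := by
  unfold Canon Step Least
  constructor
  · rintro ⟨⟨h1, h2⟩, h3⟩
    refine ⟨h1, ?_, fun h4 => dead_iff.1 h4 h2⟩
    intro c hc e'' he''
    by_cases h7 : encode e'' = c
    · by_cases h5 : Ext d m e' e''
      · right
        rw [dead_iff]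
        intro h6
        exact h3 e'' (by rw [h7]; exact hc) ⟨h5, h6⟩
      · left; right; exact h5
    · left; left; exact h7
  · rintro ⟨h1, h2, h3⟩
    refine ⟨⟨h1, ?_⟩, ?_⟩
    · by_contra h4
      exact h3 (dead_iff.2 h4)
    · rintro e'' h4 ⟨h5, h6⟩
      rcases h2 _ h4 e'' (by rw [Option.mem_toList, encodek]) with (h7 | h7) | h7
      · exact h7 rfl
      · exact h7 h5
      · exact dead_iff.1 h7 h6

theorem s1_least {Q : ℕ × List Bool → ℕ → Prop} (hQ : PrimrecRel Q) {d m : α → ℕ}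
    {e' e : α → ℕ × List ℕ} (hd : Primrec d) (hm : Primrec m)
    (he' : Primrec e') (he : Primrec e) : S1 fun a => Least Q (d a) (m a) (e' a) (e a) := by
  unfold Least
  refine S1.all_lt (α := α) (p := fun a c => ∀ e'' ∈ (decode (α := ℕ × List ℕ) c).toList,
    (¬ (encode e'' = c) ∨ ¬ Ext (d a) (m a) (e' a) e'') ∨ Dead Q (d a, m a, e''.1, e''.2)) ?_
    (Primrec.encode.comp he)
  refine S1.all_mem (α := α × ℕ) (p := fun p (e'' : ℕ × List ℕ) =>
    (¬ (encode e'' = p.2) ∨ ¬ Ext (d p.1) (m p.1) (e' p.1) e'') ∨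
      Dead Q (d p.1, m p.1, e''.1, e''.2)) ?_
    (Primrec.optionToList.comp (Primrec.decode.comp Primrec.snd))
  have c1 : Primrec (fun p : (α × ℕ) × (ℕ × List ℕ) => p.1.1) := Primrec.fst.comp Primrec.fst
  refine S1.or (S1.of_prim (PrimrecPred.or (PrimrecPred.not ?_) (PrimrecPred.not ?_))) ?_
  · exact Primrec.eq.comp (Primrec.encode.comp Primrec.snd) (Primrec.snd.comp Primrec.fst)
  · exact pr_ext (hd.comp c1) (hm.comp c1) (he'.comp c1) Primrec.snd
  · exact (s1_dead hQ).comp ((hd.comp c1).pair ((hm.comp c1).pair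
      ((Primrec.fst.comp Primrec.snd).pair (Primrec.snd.comp Primrec.snd))))

end

end Pool.Agent.H561R3
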