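import Mathlib
import Pool.Agent.H561R3.Sig

set_option autoImplicit false

namespace Pool.Agent.H561R3

open Encodable Pool.Agent.Helper227

/-- the `k`-th level of the test -/
def W (Q : ℕ × List Bool → ℕ → Prop) (x : ℕ × List Bool) : Prop :=
  ∃ d m, x.1 + 4 ≤ d ∧ x.2 ∈ newset Q d m

/-- entry of a list of pairs -/
def ge (h : List (ℕ × List ℕ)) (i : ℕ) : ℕ × List ℕ := h.getD i (0, [])

/-- the parameters: `((k, σ), (d, m, h))` -/
abbrev Pz := (ℕ × List Bool) × (ℕ × ℕ × List (ℕ × List ℕ))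

def P0 (p : Pz) : Prop :=
  p.1.1 + 4 ≤ p.2.1 ∧ ge p.2.2.2 0 = (0, []) ∧
  (∀ i < p.2.2.1 + 1, Ext p.2.1 i (ge p.2.2.2 i) (ge p.2.2.2 (i + 1))) ∧
  p.1.2.length = (ge p.2.2.2 (p.2.2.1 + 1)).1 ∧
  2 ^ (p.2.2.1 + 1 + p.2.1) ≤ 2 * ev (ge p.2.2.2 (p.2.2.1 + 1)).2 p.1.2 ∧
  ¬ (2 ^ (p.2.2.1 + p.2.1) ≤
    2 * ev (ge p.2.2.2 p.2.2.1).2 (p.1.2.take (ge p.2.2.2 p.2.2.1).1))

def P1 (Q : ℕ × List Bool → ℕ → Prop) (p : Pz) : Prop :=
  P0 p ∧ ∀ i < p.2.2.1 + 1, Least Q p.2.1 i (ge p.2.2.2 i) (ge p.2.2.2 (i + 1))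

def N1 (Q : ℕ × List Bool → ℕ → Prop) (p : Pz) : Prop :=
  ∃ i, i < p.2.2.1 + 1 ∧
    Dead Q (p.2.1, i, (ge p.2.2.2 (i + 1)).1, (ge p.2.2.2 (i + 1)).2)

theorem pr_ge {α : Type*} [Primcodable α] {h : α → List (ℕ × List ℕ)} {i : α → ℕ}
    (hh : Primrec h) (hi : Primrec i) : Primrec fun a => ge (h a) (i a) :=
  (Primrec.list_getD ((0, []) : ℕ × List ℕ)).comp hh hi

theorem pr_P0 : PrimrecPred P0 := by
  have k' : Primrec (fun p : Pz => p.1.1) := Primrec.fst.comp Primrec.fst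
  have s' : Primrec (fun p : Pz => p.1.2) := Primrec.snd.comp Primrec.fst
  have d' : Primrec (fun p : Pz => p.2.1) := Primrec.fst.comp Primrec.snd
  have m' : Primrec (fun p : Pz => p.2.2.1) := Primrec.fst.comp (Primrec.snd.comp Primrec.snd)
  have h' : Primrec (fun p : Pz => p.2.2.2) := Primrec.snd.comp (Primrec.snd.comp Primrec.snd)
  refine PrimrecPred.and ?_ (PrimrecPred.and ?_ (PrimrecPred.and ?_ (PrimrecPred.and ?_
    (PrimrecPred.and ?_ (PrimrecPred.not ?_)))))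
  · exact Primrec.nat_le.comp (Primrec.nat_add.comp k' (Primrec.const 4)) d'
  · exact Primrec.eq.comp (pr_ge h' (Primrec.const 0)) (Primrec.const _)
  · refine PP.all_lt (α := Pz) (p := fun p i =>
      Ext p.2.1 i (ge p.2.2.2 i) (ge p.2.2.2 (i + 1))) ?_ (Primrec.succ.comp m')
    exact pr_ext (d'.comp Primrec.fst) Primrec.snd (pr_ge (h'.comp Primrec.fst) Primrec.snd)
      (pr_ge (h'.comp Primrec.fst) (Primrec.succ.comp Primrec.snd))
  · exact Primrec.eq.comp (Primrec.list_length.comp s')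
      (Primrec.fst.comp (pr_ge h' (Primrec.succ.comp m')))
  · exact Primrec.nat_le.comp (pr_pow.comp (Primrec.const 2) (Primrec.nat_add.comp
      (Primrec.succ.comp m') d')) (Primrec.nat_mul.comp (Primrec.const 2)
      (pr_ev (Primrec.snd.comp (pr_ge h' (Primrec.succ.comp m'))) s'))
  · exact Primrec.nat_le.comp (pr_pow.comp (Primrec.const 2) (Primrec.nat_add.comp
      m' d')) (Primrec.nat_mul.comp (Primrec.const 2)
      (pr_ev (Primrec.snd.comp (pr_ge h' m')) (Primrec.list_take.comp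
        (Primrec.fst.comp (pr_ge h' m')) s')))

theorem s1_P1 {Q : ℕ × List Bool → ℕ → Prop} (hQ : PrimrecRel Q) : S1 (P1 Q) := by
  have d' : Primrec (fun p : Pz => p.2.1) := Primrec.fst.comp Primrec.snd
  have m' : Primrec (fun p : Pz => p.2.2.1) := Primrec.fst.comp (Primrec.snd.comp Primrec.snd)
  have h' : Primrec (fun p : Pz => p.2.2.2) := Primrec.snd.comp (Primrec.snd.comp Primrec.snd)
  refine S1.and (S1.of_prim pr_P0) ?_
  refine S1.all_lt (α := Pz) (p := fun p i =>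
    Least Q p.2.1 i (ge p.2.2.2 i) (ge p.2.2.2 (i + 1))) ?_ (Primrec.succ.comp m')
  exact s1_least hQ (d'.comp Primrec.fst) Primrec.snd (pr_ge (h'.comp Primrec.fst) Primrec.snd)
      (pr_ge (h'.comp Primrec.fst) (Primrec.succ.comp Primrec.snd))

theorem s1_N1 {Q : ℕ × List Bool → ℕ → Prop} (hQ : PrimrecRel Q) : S1 (N1 Q) := by
  have d' : Primrec (fun p : Pz => p.2.1) := Primrec.fst.comp Primrec.snd
  have m' : Primrec (fun p : Pz => p.2.2.1) := Primrec.fst.comp (Primrec.snd.comp Primrec.snd)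
  have h' : Primrec (fun p : Pz => p.2.2.2) := Primrec.snd.comp (Primrec.snd.comp Primrec.snd)
  refine S1.ex (α := Pz) (β := ℕ) (p := fun p i => i < p.2.2.1 + 1 ∧
    Dead Q (p.2.1, i, (ge p.2.2.2 (i + 1)).1, (ge p.2.2.2 (i + 1)).2)) ?_
  refine S1.and (S1.of_prim ?_) ?_
  · exact Primrec.nat_lt.comp Primrec.snd (Primrec.succ.comp (m'.comp Primrec.fst))
  · have g1 : Primrec fun p : Pz × ℕ => ge p.1.2.2.2 (p.2 + 1) :=
      pr_ge (h'.comp Primrec.fst) (Primrec.succ.comp Primrec.snd)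
    exact (s1_dead hQ).comp ((d'.comp Primrec.fst).pair (Primrec.snd.pair
      ((Primrec.fst.comp g1).pair (Primrec.snd.comp g1))))

theorem W_iff {Q : ℕ × List Bool → ℕ → Prop}
    (hc : ∀ d m, Canon Q d m (E Q d m) (E Q d (m + 1))) (x : ℕ × List Bool) :
    W Q x ↔ ∃ z, P1 Q (x, z) ∧ ¬ N1 Q (x, z) := by
  classical
  constructor
  · rintro ⟨d, m, h1, h2⟩
    unfold newset at h2
    rw [Finset.mem_filter, mem_FS] at h2
    obtain ⟨h3, h4, h5⟩ := h2
    have hge : ∀ i < m + 2, ge ((List.range (m + 2)).map (E Q d)) i = E Q d i := by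
      intro i hi
      unfold ge
      rw [List.getD_eq_getElem _ _ (by simpa using hi)]
      simp
    refine ⟨(d, m, (List.range (m + 2)).map (E Q d)), ⟨⟨h1, ?_, ?_, ?_, ?_, ?_⟩, ?_⟩, ?_⟩
    · simp only; rw [hge 0 (by omega)]; rfl
    · intro i hi
      simp only at hi ⊢
      rw [hge i (by omega), hge (i + 1) (by omega)]
      exact (hc d i).1.1
    · simp only; rw [hge (m + 1) (by omega)]; exact h3
    · simp only; rw [hge (m + 1) (by omega)]; exact h4
    · simp only; rw [hge m (by omega)]; exact h5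
    · intro i hi
      simp only at hi ⊢
      rw [hge i (by omega), hge (i + 1) (by omega)]
      exact (canon_iff.1 (hc d i)).2.1
    · rintro ⟨i, hi, h6⟩
      simp only at hi h6
      rw [hge (i + 1) (by omega)] at h6
      exact (canon_iff.1 (hc d i)).2.2 h6
  · rintro ⟨⟨d, m, h⟩, ⟨⟨h1, h2, h3, h4, h5, h6⟩, h7⟩, h8⟩
    simp only at h1 h2 h3 h4 h5 h6 h7
    have hge : ∀ i < m + 2, ge h i = E Q d i := by
      intro i
      induction i with
      | zero => intro _; rw [h2]; rfl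
      | succ i ih =>
        intro hi
        have h9 := ih (by omega)
        have h10 : Canon Q d i (ge h i) (ge h (i + 1)) :=
          canon_iff.2 ⟨h3 i (by omega), h7 i (by omega), fun h11 => h8 ⟨i, by simp only; omega, h11⟩⟩
        rw [h9] at h10
        exact h10.unique (hc d i)
    rw [hge (m + 1) (by omega)] at h4 h5
    rw [hge m (by omega)] at h6
    refine ⟨d, m, h1, ?_⟩
    unfold newset
    rw [Finset.mem_filter, mem_FS]
    exact ⟨h4, h5, h6⟩

/-- the test, in the form of a computable presentation -/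
theorem exists_R {Q : ℕ × List Bool → ℕ → Prop} (hQ : PrimrecRel Q)
    (hc : ∀ d m, Canon Q d m (E Q d m) (E Q d (m + 1))) :
    ∃ R : ℕ × List Bool × ℕ × ℕ → Bool, Computable R ∧
      ∀ k σ, W Q (k, σ) ↔ ∃ a, ∀ b, R (k, σ, a, b) = true := by
  obtain ⟨R, hR, h1⟩ := sigma_two (s1_P1 hQ) (s1_N1 hQ)
  refine ⟨fun p => R ((p.1, p.2.1), p.2.2.1, p.2.2.2), hR.comp ?_, fun k σ => ?_⟩
  · exact (Computable.fst.pair (Computable.fst.comp Computable.snd)).pair
      ((Computable.fst.comp (Computable.snd.comp Computable.snd)).pair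
      (Computable.snd.comp (Computable.snd.comp Computable.snd)))
  · rw [W_iff hc, h1]

end Pool.Agent.H561R3
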