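import Mathlib
import Pool.Agent.H561R3.Def

set_option autoImplicit false

namespace Pool.Agent.H561R3

open Encodable Pool.Agent.Helper227

theorem s1_graph {α β : Type*} [Primcodable α] [Primcodable β] {f : α →. β} (hf : Partrec f) :
    S1 fun x : α × β => x.2 ∈ f x.1 := by
  have h1 : Partrec fun x : α × β => (f x.1).bind fun y =>
      (if encode y = encode x.2 then Part.some () else Part.none) := by
    refine Partrec.bind (hf.comp Computable.fst) ?_
    have h2 : PrimrecPred fun z : (α × β) × β => encode z.2 = encode z.1.2 :=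
      Primrec.eq.comp (Primrec.encode.comp Primrec.snd)
        (Primrec.encode.comp (Primrec.snd.comp Primrec.fst))
    have h3 : Partrec fun z : (α × β) × β =>
        (cond (decide (encode z.2 = encode z.1.2)) (Part.some ())
          Part.none : Part Unit) :=
      Partrec.cond h2.decide.to_comp (Computable.const ()).partrec Partrec.none
    refine h3.of_eq fun z => ?_
    by_cases h : encode z.2 = encode z.1.2 <;> simp [h]
  refine (S1.of_re h1.dom_re).of_eq fun x => ?_
  simp only [Part.bind_dom]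
  constructor
  · rintro ⟨h, h2⟩
    by_cases h3 : encode ((f x.1).get h) = encode x.2
    · rw [← encode_injective h3]; exact Part.get_mem h
    · rw [if_neg h3] at h2
      exact h2.elim
  · intro h
    refine ⟨Part.dom_iff_mem.2 ⟨_, h⟩, ?_⟩
    have h3 : (f x.1).get (Part.dom_iff_mem.2 ⟨_, h⟩) = x.2 :=
      Part.get_eq_of_mem h _
    rw [h3, if_pos rfl]
    trivial

/-- `x` is compressible by more than `d` bits -/
def Bd (U : List Bool →. List Bool) (d : ℕ) (x : List Bool) : Prop :=
  ∃ q : List Bool, x ∈ U q ∧ q.length + d < x.length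

theorem s1_Bd {U : List Bool →. List Bool} (hU : Partrec U) :
    S1 fun a : ℕ × List Bool => Bd U a.1 a.2 := by
  unfold Bd
  refine S1.ex (α := ℕ × List Bool) (β := List Bool) (p := fun a q => a.2 ∈ U q ∧
    q.length + a.1 < a.2.length) (S1.and ?_ (S1.of_prim ?_))
  · exact (s1_graph hU).comp (Primrec.snd.pair (Primrec.snd.comp Primrec.fst))
  · exact Primrec.nat_lt.comp (Primrec.nat_add.comp (Primrec.list_length.comp Primrec.snd)
      (Primrec.fst.comp Primrec.fst)) (Primrec.list_length.comp (Primrec.snd.comp Primrec.fst))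

theorem count_Bd (U : List Bool →. List Bool) (d N : ℕ) :
    sumA (Bd U d) N (fun _ => 1) * 2 ^ d ≤ 2 ^ N := by
  classical
  have h0 : sumA (Bd U d) N (fun _ => 1) = ((FS N).filter (Bd U d)).card := by
    unfold sumA
    rw [Finset.sum_boole]
    simp only [Nat.cast_id]
  rw [h0]
  by_cases hN : N ≤ d
  · have : (FS N).filter (Bd U d) = ∅ := by
      rw [Finset.filter_eq_empty_iff]
      rintro x hx ⟨q, _, h⟩
      rw [mem_FS] at hx
      omega
    rw [this]; simp
  · push Not at hN
    have h1 : ((FS N).filter (Bd U d)).card ≤ ((Finset.range (N - d)).biUnion FS).card := by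
      refine Finset.card_le_card_of_injOn
        (fun x => if h : Bd U d x then h.choose else []) ?_ ?_
      · intro x hx
        rw [Finset.mem_coe, Finset.mem_filter] at hx
        have h2 := hx.2.choose_spec
        simp only [Finset.coe_biUnion, Finset.mem_coe, Finset.mem_range, Set.mem_iUnion]
        rw [dif_pos hx.2]
        refine ⟨hx.2.choose.length, ?_, mem_FS.2 rfl⟩
        have h3 := mem_FS.1 hx.1
        omega
      · intro x hx y hy hxy
        rw [Finset.mem_coe, Finset.mem_filter] at hx hy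
        simp only at hxy
        rw [dif_pos hx.2, dif_pos hy.2] at hxy
        have h2 := hx.2.choose_spec.1
        have h3 := hy.2.choose_spec.1
        rw [hxy] at h2
        exact Part.mem_unique h2 h3
    have h2 : ((Finset.range (N - d)).biUnion FS).card ≤ 2 ^ (N - d) := by
      refine Finset.card_biUnion_le.trans ?_
      simp only [card_FS]
      have : ∀ n : ℕ, ∑ i ∈ Finset.range n, 2 ^ i ≤ 2 ^ n := by
        intro n
        induction n with
        | zero => simp
        | succ n ih => rw [Finset.sum_range_succ, pow_succ]; omega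
      exact this _
    calc ((FS N).filter (Bd U d)).card * 2 ^ d ≤ 2 ^ (N - d) * 2 ^ d :=
          Nat.mul_le_mul_right _ (h1.trans h2)
      _ = 2 ^ N := by rw [← pow_add]; congr 1; omega

theorem sum_biUnion_le' {ι α : Type*} [DecidableEq α] (s : Finset ι) (t : ι → Finset α)
    (f : α → ℝ) (hf : ∀ a, 0 ≤ f a) : ∑ a ∈ s.biUnion t, f a ≤ ∑ i ∈ s, ∑ a ∈ t i, f a := by
  classical
  induction s using Finset.induction with
  | empty => simp
  | insert i s hi ih =>
    rw [Finset.biUnion_insert, Finset.sum_insert hi]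
    have h1 := Finset.sum_union_inter (s₁ := t i) (s₂ := s.biUnion t) (f := f)
    have h2 : 0 ≤ ∑ a ∈ t i ∩ s.biUnion t, f a := Finset.sum_nonneg fun a _ => hf a
    linarith

section
variable {Q : ℕ × List Bool → ℕ → Prop} {B : ℕ → List Bool → Prop}

theorem weight_W (hB : ∀ d x, B d x ↔ ∃ n, Q (d, x) n)
    (hmono : ∀ a m n, m ≤ n → Q a m → Q a n)
    (hcount : ∀ d N, sumA (B d) N (fun _ => 1) * 2 ^ d ≤ 2 ^ N) (k : ℕ)
    (S : Finset (List Bool)) (hS : ∀ σ ∈ S, W Q (k, σ)) :
    ∑ σ ∈ S, ((1 : ℝ) / 2) ^ σ.length ≤ ((1 : ℝ) / 2) ^ k := by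
  classical
  have hS' : ∀ σ ∈ S, ∃ p : ℕ × ℕ, k + 4 ≤ p.1 ∧ σ ∈ newset Q p.1 p.2 := by
    intro σ hσ
    obtain ⟨d, m, h1, h2⟩ := hS σ hσ
    exact ⟨(d, m), h1, h2⟩
  choose! p hp1 hp2 using hS'
  let D := (S.sup fun σ => (p σ).1) + 1
  let J := (S.sup fun σ => (p σ).2) + 1
  have hsub : S ⊆ (Finset.range D).biUnion fun i => (Finset.range J).biUnion fun m =>
      newset Q (k + 4 + i) m := by
    intro σ hσ
    simp only [Finset.mem_biUnion, Finset.mem_range]
    have h1 : (p σ).1 ≤ S.sup fun σ => (p σ).1 := Finset.le_sup (f := fun σ => (p σ).1) hσ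
    have h2 : (p σ).2 ≤ S.sup fun σ => (p σ).2 := Finset.le_sup (f := fun σ => (p σ).2) hσ
    have h3 := hp1 σ hσ
    refine ⟨(p σ).1 - (k + 4), by omega, (p σ).2, by omega, ?_⟩
    have : k + 4 + ((p σ).1 - (k + 4)) = (p σ).1 := by omega
    rw [this]
    exact hp2 σ hσ
  have hpos : ∀ σ : List Bool, (0 : ℝ) ≤ ((1 : ℝ) / 2) ^ σ.length := fun σ => by positivity
  calc ∑ σ ∈ S, ((1 : ℝ) / 2) ^ σ.length
      ≤ ∑ σ ∈ (Finset.range D).biUnion fun i => (Finset.range J).biUnion fun m =>
          newset Q (k + 4 + i) m, ((1 : ℝ) / 2) ^ σ.length :=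
        Finset.sum_le_sum_of_subset_of_nonneg hsub fun σ _ _ => hpos σ
    _ ≤ ∑ i ∈ Finset.range D, ∑ σ ∈ (Finset.range J).biUnion fun m =>
          newset Q (k + 4 + i) m, ((1 : ℝ) / 2) ^ σ.length := sum_biUnion_le' _ _ _ hpos
    _ ≤ ∑ i ∈ Finset.range D, 6 * ((1 : ℝ) / 2) ^ (k + 4 + i) := by
        refine Finset.sum_le_sum fun i _ => ?_
        exact (sum_biUnion_le' _ _ _ hpos).trans (sum_new_le hB hmono hcount (k + 4 + i) J)
    _ = 6 * ((1 : ℝ) / 2) ^ (k + 4) * ∑ i ∈ Finset.range D, ((1 : ℝ) / 2) ^ i := by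
        rw [Finset.mul_sum]
        refine Finset.sum_congr rfl fun i _ => ?_
        rw [pow_add]; ring
    _ ≤ 6 * ((1 : ℝ) / 2) ^ (k + 4) * 2 := by
        refine mul_le_mul_of_nonneg_left ?_ (by positivity)
        have : ∀ n : ℕ, ∑ i ∈ Finset.range n, ((1 : ℝ) / 2) ^ i = 2 - 2 * ((1 : ℝ) / 2) ^ n := by
          intro n
          induction n with
          | zero => simp
          | succ n ih => rw [Finset.sum_range_succ, ih, pow_succ]; ring
        rw [this]
        have : (0 : ℝ) ≤ ((1 : ℝ) / 2) ^ D := by positivity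
        linarith
    _ ≤ ((1 : ℝ) / 2) ^ k := by
        rw [pow_add]
        have : (0 : ℝ) ≤ ((1 : ℝ) / 2) ^ k := by positivity
        norm_num
        nlinarith

/-- the first `n` bits -/
def pre (X : ℕ → Bool) (n : ℕ) : List Bool := List.ofFn (fun i : Fin n => X i)

theorem length_pre (X : ℕ → Bool) (n : ℕ) : (pre X n).length = n := by simp [pre]

theorem take_pre (X : ℕ → Bool) {n K : ℕ} (h : K ≤ n) : (pre X n).take K = pre X K := by
  refine List.ext_getElem (by simp [pre]; omega) fun i h1 h2 => ?_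
  simp [pre]

/-- a sequence that is not caught is not hit -/
theorem not_hit (hc : ∀ d m, Canon Q d m (E Q d m) (E Q d (m + 1))) {X : ℕ → Bool} {k d : ℕ}
    (hkd : k + 4 ≤ d) (hX : ∀ n, ¬ W Q (k, pre X n)) (m : ℕ) :
    ¬ Hit Q d m (pre X (E Q d m).1) := by
  classical
  induction m with
  | zero =>
    unfold Hit
    simp only [E, ev_nil]
    have : 0 < 2 ^ (0 + d) := by positivity
    omega
  | succ m ih =>
    intro h
    refine hX (E Q d (m + 1)).1 ⟨d, m, hkd, ?_⟩
    unfold newset
    rw [Finset.mem_filter, mem_FS]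
    refine ⟨length_pre _ _, h, ?_⟩
    rw [take_pre X (hc d m).1.1.1]
    exact ih

theorem pair_main (hB : ∀ d x, B d x ↔ ∃ n, Q (d, x) n)
    (hmono : ∀ a m n, m ≤ n → Q a m → Q a n)
    (hcount : ∀ d N, sumA (B d) N (fun _ => 1) * 2 ^ d ≤ 2 ^ N) {X Y : ℕ → Bool} {k k' : ℕ}
    (hX : ∀ n, ¬ W Q (k, pre X n)) (hY : ∀ n, ¬ W Q (k', pre Y n)) :
    ∃ d, ∃ᶠ n in Filter.atTop, ¬ B d (pre X n) ∧ ¬ B d (pre Y n) := by
  have hinv := inv_all hB hmono hcount
  have hc := fun d m => canon_of_inv hB (hinv d m)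
  refine ⟨max k k' + 4, ?_⟩
  set d := max k k' + 4 with hd
  rw [Filter.frequently_atTop]
  intro m
  by_contra hcon
  push Not at hcon
  obtain ⟨A, hA1, hA2, hA3⟩ := good_of_alive hB hmono (hc d m).1.2
  have hX' := not_hit hc (d := d) (by omega) hX (m + 1)
  have hY' := not_hit hc (d := d) (by omega) hY (m + 1)
  have h1 := hA2 (pre X (E Q d (m + 1)).1) (mem_FS.2 (length_pre _ _))
    (pre Y (E Q d (m + 1)).1) (mem_FS.2 (length_pre _ _)) (by
      intro K h2 h3
      rw [take_pre X h3, take_pre Y h3]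
      by_cases h4 : B d (pre X K)
      · left; exact hA1.1 _ h4
      · right; exact hA1.1 _ (hcon K h2 h4))
  unfold Hit at hX' hY'
  omega

end

end Pool.Agent.H561R3
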